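import Pool.Agent.Results.MP_5632c9_nt.PowerSaving
import Pool.Agent.U513.AP.Sparse

/-!
# `n = x ^ 2 + y ^ 2 - z ^ 2` with small squares, near integral polynomials at simultaneous approximations

The starting file bounds the number of the `n < N` without such a representation. Here: for all points `α` outside of a set of small
Hausdorff dimension, ALL the natural numbers near integral polynomials at ALL approximations of `α` with a large denominator have one.
-/

set_option autoImplicit false

open Finset

namespace Pool.Agent.Results.MP_5632c9_nt.Approximations

open Pool.Agent.U513.AP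
open Pool.Agent.Results.MP_5632c9_nt.PowerSaving (Representable)

/-- The property `n = x ^ 2 + y ^ 2 - z ^ 2` for some integers whose squares are at most `n` holds at approximations outside of
exceptional sets of exponent `7 / 8`. -/
theorem result : AtApproximations (ι := Unit) (7 / 8) (fun _ n => Representable n) := by
  classical
  obtain ⟨C, h⟩ := PowerSaving.result
  have key := sparse_law_pow (ι := Unit) (c := 1 / 8) (by norm_num) (fun _ n => Representable n)
    fun _ => ⟨max C 0 * 2 ^ (7 / 8 : ℝ), 1, fun X hX => ?_⟩
  · rwa [show (1 : ℝ) - 1 / 8 = 7 / 8 by norm_num] at key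
  · have hX1 : (1 : ℝ) ≤ X := by exact_mod_cast hX
    have h1 := h (X + 1) (by omega)
    have hfin : {n : ℕ | 0 < n ∧ n < X + 1 ∧ ¬ Representable n}.Finite :=
      (Set.finite_Iio (X + 1)).subset fun n hn => hn.2.1
    refine (Nat.cast_le.2 (Set.ncard_le_ncard ?_ hfin)).trans (h1.trans ?_)
    · rintro n ⟨hn1, hn2, hn3⟩
      exact ⟨by omega, by omega, hn3⟩
    · rw [show (1 : ℝ) - 1 / 8 = 7 / 8 by norm_num, mul_assoc, ← Real.mul_rpow (by norm_num) (by linarith)]
      refine mul_le_mul (le_max_left _ _) (Real.rpow_le_rpow (by positivity) ?_ (by norm_num)) (by positivity)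
        (le_max_right _ _)
      push_cast
      linarith

end Pool.Agent.Results.MP_5632c9_nt.Approximations
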